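import Pool.Agent.W822.PD.Stm
import Pool.Agent.W801.DPdet
import Pool.Agent.W571.DParms
import Pool.Agent.H984R3.Per.Count

/-!
PD-DET: deterministic part of a trial (project PD, MP_6bd702_pr).
-/

namespace Pool.Agent.W125.PD

open H974 H12S Finset H389NS H984P H984N H342P
open Pool.Agent.W92.DP Pool.Agent.W822.PD
open Pool.Agent.W801.DPdet (sh src_sh tgt_sh dsrc_sh dtgt_sh reach_sh dreach_sh dcross_meet dl_RE
  dl_LRE dl_TBE mem_core4 arms_tr)

theorem mem_tr {z : Vtx} {F : Finset Edg} {e : Edg} : e ∈ tr z F ↔ sh z e ∈ F := by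
  obtain ⟨x, y, b⟩ := e
  unfold tr
  rw [LSym.mem_mp, trl_φs, sub_neg_eq_add, sub_neg_eq_add]
  rfl

theorem sh_neg (z : Vtx) (e : Edg) : sh z (sh (-z.1, -z.2) e) = e := by
  obtain ⟨x, y, b⟩ := e
  simp [sh]

theorem sh_RE {z : Vtx} {a b c d : ℤ} {e : Edg} :
    sh z e ∈ RE a b c d ↔ e ∈ RE (a - z.1) (b - z.1) (c - z.2) (d - z.2) := by
  obtain ⟨x, y, _ | _⟩ := e
  · simp only [sh, mem_RE_false]; omega
  · simp only [sh, mem_RE_true]; omega

/-- The bottom arm and the open crossings lead to the lower strip. -/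
theorem open_part {F : Finset Edg} {P : Set Edg} {U : ℤ} (hU : 128 ≤ U)
    (hP : (↑F : Set Edg) ∩ ↑(RE (-(144 * U)) (144 * U) (-(28 * U)) (68 * U)) ⊆ P)
    (hG : GO U F) (hT : TBc (-(17 * U)) (-U) (-(28 * U)) (12 * U) F)
    {p q : Vtx} (hp : p.1 ≤ -(17 * U)) (hq : -U ≤ q.1)
    (hS : Reach (↑F ∩ ↑(RE (-(144 * U)) (144 * U) (-(28 * U)) (-(4 * U)))) p q)
    {v : Vtx} (hv : v ∈ core4 U) {e : Edg} {a w : Vtx}
    (hw : w.2 = v.2 - 16 * U) (ha : v.2 ≤ a.2)
    (hr : Reach ((↑F ∩ ↑(RE (v.1 - 4 * U) (v.1 + 4 * U) (v.2 - 16 * U) (v.2 + 16 * U))) \ {e})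
      a w) : Reach P p a := by
  rw [mem_core4] at hv
  obtain ⟨⟨v1, v2⟩, v3, v4⟩ := hv
  obtain ⟨⟨y, y', hy, hy', h1⟩, -⟩ := hG
  obtain ⟨x, x', hx, hx', h2⟩ := hT
  have h1' : Reach (↑F ∩ ↑(RE (-(17 * U)) (-U) (4 * U) (12 * U))) (-(17 * U), y) (-U, y') :=
    h1.mono (Set.inter_subset_inter_right (↑F) (by exact_mod_cast LRE_subset_RE))
  have h2' : Reach (↑F ∩ ↑(RE (-(17 * U)) (-U) (-(28 * U)) (12 * U))) (x, -(28 * U)) (x', 12 * U) :=
    h2.mono (Set.inter_subset_inter_right (↑F) (by exact_mod_cast TBE_subset_RE))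
  have hr' : Reach (↑F ∩ ↑(RE (v.1 - 4 * U) (v.1 + 4 * U) (v.2 - 16 * U) (v.2 + 16 * U))) w a :=
    (hr.mono Set.sdiff_subset).symm
  have m1 := cross_meet (F := (↑F : Set Edg)) (A := -(17 * U)) (B := -U) (C := v.2 - 16 * U)
      (D := v.2 + 16 * U) (a := v.1 - 4 * U) (b := v.1 + 4 * U) (c := 4 * U) (d := 12 * U)
      (by omega) (by omega) (by omega) (by omega) (by omega) (by omega) h1'
      (by simp only; omega) (by simp only; omega) hr' (by omega) (by omega)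
  have m2 := cross_meet (F := (↑F : Set Edg)) (A := -(17 * U)) (B := -U) (C := -(28 * U))
      (D := 12 * U) (a := -(17 * U)) (b := -U) (c := 4 * U) (d := 12 * U)
      (by omega) (by omega) (by omega) (by omega) (by omega) (by omega) h1'
      (by simp only; omega) (by simp only; omega) h2' (by simp only; omega) (by simp only; omega)
  have m3 := cross_meet (F := (↑F : Set Edg)) (A := -(144 * U)) (B := 144 * U) (C := -(28 * U))
      (D := 12 * U) (a := -(17 * U)) (b := -U) (c := -(28 * U)) (d := -(4 * U))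
      (by omega) (by omega) (by omega) (by omega) (by omega) (by omega) hS
      hp hq h2' (by simp only; omega) (by simp only; omega)
  have sub : ∀ {a b c d : ℤ}, -(144 * U) ≤ a → b ≤ 144 * U → -(28 * U) ≤ c → d ≤ 68 * U →
      (↑F : Set Edg) ∩ ↑(RE a b c d) ⊆ P := by
    intro a b c d ha hb hc hd
    refine (Set.inter_subset_inter_right _ ?_).trans hP
    exact_mod_cast RE_subset ha hb hc hd
  have n1 : Reach P w a := hr'.mono (sub (by omega) (by omega) (by omega) (by omega))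
  have n2 : Reach P (-(17 * U), y) w := m1.mono (sub (by omega) (by omega) (by omega) (by omega))
  have n3 := m2.mono (sub (by omega) (by omega) (by omega) (by omega))
  have n4 := m3.mono (sub (by omega) (by omega) (by omega) (by omega))
  exact n4.trans (n3.symm.trans (n2.trans n1))

/-- The dual arms and the dual crossings lead to the upper strip. -/
theorem dual_part {F : Finset Edg} {Q : Set Edg} {U : ℤ} (hU : 128 ≤ U)
    (hQ : ↑(RE (-(144 * U)) (144 * U) (-(28 * U)) (68 * U)) \ ↑F ⊆ Q)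
    (hG : GD U F) (hT : DTB U (6 * U) (36 * U) (68 * U) F)
    {p q : Vtx} (hp : p.1 ≤ U) (hq : 6 * U ≤ q.1) {G1 : Set Edg}
    (hS : DReach G1 p q) (hG1 : G1 ⊆ Q)
    (hG1' : ∀ e ∈ G1, dl e ∈ RE (-(144 * U)) (144 * U) (44 * U) (68 * U)) {v : Vtx}
    (hv : v ∈ core4 U) {f f' g g' : Vtx} (hf : v.1 - 1 ≤ f.1) (hf' : f'.1 ≤ v.1)
    (hg : g.1 = v.1 - 16 * U - 1)
    (hfg : DReach (↑(RE (v.1 - 16 * U) (v.1 + 16 * U) (v.2 - 4 * U) (v.2 + 4 * U)) \ ↑F) f g)
    (hg' : g'.1 = v.1 + 16 * U)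
    (hfg' : DReach (↑(RE (v.1 - 16 * U) (v.1 + 16 * U) (v.2 - 4 * U) (v.2 + 4 * U)) \ ↑F) f' g') :
    DReach Q p f ∧ DReach Q p f' := by
  rw [mem_core4] at hv
  obtain ⟨⟨v1, v2⟩, v3, v4⟩ := hv
  obtain ⟨⟨⟨x, x', hx, hx', hR⟩, ⟨y, y', hy, hy', hT1⟩⟩, ⟨z, z', hz, hz', hL⟩⟩ := hG
  obtain ⟨x2, x2', hx2, hx2', hT2⟩ := hT
  have sub : ∀ {a b c d : ℤ} {G : Set Edg}, -(144 * U) ≤ a → b ≤ 144 * U → -(28 * U) ≤ c →
      d ≤ 68 * U → G ⊆ ↑(RE a b c d) \ ↑F → G ⊆ Q := by
    intro a b c d G ha hb hc hd hG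
    refine (hG.trans ?_).trans hQ
    refine Set.sdiff_subset_sdiff_left ?_
    exact_mod_cast RE_subset ha hb hc hd
  have sA : ((↑(RE (v.1 - 16 * U) (v.1 + 16 * U) (v.2 - 4 * U) (v.2 + 4 * U)) \ ↑F : Set Edg)) ⊆
      Q := sub (by omega) (by omega) (by omega) (by omega) subset_rfl
  have rA : ∀ e ∈ ((↑(RE (v.1 - 16 * U) (v.1 + 16 * U) (v.2 - 4 * U) (v.2 + 4 * U)) \ ↑F :
      Set Edg)), dl e ∈ RE (v.1 - 16 * U - 1) (v.1 + 16 * U) (v.2 - 4 * U - 1) (v.2 + 4 * U) :=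
    fun e he => dl_RE (Finset.mem_coe.mp he.1)
  have sLR : ∀ {a b c d : ℤ}, -(144 * U) ≤ a → b ≤ 144 * U → -(28 * U) ≤ c →
      d ≤ 68 * U → (↑(LRE a b c d \ F) : Set Edg) ⊆ Q := by
    intro a b c d ha hb hc hd
    refine sub ha hb hc hd ?_
    intro e he
    rw [Finset.mem_coe, Finset.mem_sdiff] at he
    exact ⟨Finset.mem_coe.mpr (LRE_subset_RE he.1), he.2⟩
  have rLR : ∀ {a b c d : ℤ}, ∀ e ∈ (↑(LRE a b c d \ F) : Set Edg),
      dl e ∈ RE a (b - 1) (c - 1) d := by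
    intro a b c d e he
    rw [Finset.mem_coe, Finset.mem_sdiff] at he
    exact dl_LRE he.1
  have sT : (↑(TBE (-(24 * U)) (6 * U) (36 * U) (38 * U) \ F) : Set Edg) ⊆ Q := by
    refine sub (a := -(24 * U)) (b := 6 * U) (c := 36 * U) (d := 38 * U)
      (by omega) (by omega) (by omega) (by omega) ?_
    intro e he
    rw [Finset.mem_coe, Finset.mem_sdiff] at he
    exact ⟨Finset.mem_coe.mpr (TBE_subset_RE he.1), he.2⟩
  have rT : ∀ e ∈ (↑(TBE (-(24 * U)) (6 * U) (36 * U) (38 * U) \ F) : Set Edg),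
      dl e ∈ RE (-(24 * U) - 1) (6 * U) (36 * U) (38 * U - 1) := by
    intro e he
    rw [Finset.mem_coe, Finset.mem_sdiff] at he
    exact dl_TBE he.1
  -- right arm
  have m1 := dcross_meet (G := Q) (A := v.1 - 16 * U - 1)
    (B := v.1 + 16 * U) (C := 0 - 1) (D := 38 * U) (a := U) (b := 6 * U - 1)
    (c := v.2 - 4 * U - 1) (d := v.2 + 4 * U) (by omega) (by omega) (by omega) (by omega)
    (by omega) (by omega) hfg' sA rA (by omega) (by omega) hR
    (sLR (by omega) (by omega) (by omega) (by omega)) rLR (by simp only; omega)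
    (by simp only; omega)
  -- left arm
  have m2 := dcross_meet (G := Q) (A := v.1 - 16 * U - 1)
    (B := v.1 + 16 * U) (C := 12 * U - 1) (D := 38 * U) (a := -(24 * U)) (b := -(19 * U) - 1)
    (c := v.2 - 4 * U - 1) (d := v.2 + 4 * U) (by omega) (by omega) (by omega) (by omega)
    (by omega) (by omega) hfg.symm sA rA (by omega) (by omega) hL
    (sLR (by omega) (by omega) (by omega) (by omega)) rLR (by simp only; omega)
    (by simp only; omega)
  have m3 := dcross_meet (G := Q) (A := -(24 * U) - 1)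
    (B := 6 * U) (C := 12 * U - 1) (D := 38 * U) (a := -(24 * U)) (b := -(19 * U) - 1)
    (c := 36 * U) (d := 38 * U - 1) (by omega) (by omega) (by omega) (by omega)
    (by omega) (by omega) hT1 sT rT (by simp only; omega) (by simp only; omega) hL
    (sLR (by omega) (by omega) (by omega) (by omega)) rLR
    (by simp only; omega) (by simp only; omega)
  have m4 := dcross_meet (G := Q) (A := -(24 * U) - 1)
    (B := 6 * U) (C := 0 - 1) (D := 38 * U) (a := U) (b := 6 * U - 1)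
    (c := 36 * U) (d := 38 * U - 1) (by omega) (by omega) (by omega) (by omega)
    (by omega) (by omega) hT1 sT rT (by simp only; omega) (by simp only; omega) hR
    (sLR (by omega) (by omega) (by omega) (by omega)) rLR
    (by simp only; omega) (by simp only; omega)
  have m5 := dcross_meet (G := Q) (A := -(24 * U) - 1)
    (B := 6 * U) (C := 36 * U - 1) (D := 68 * U) (a := U) (b := 6 * U - 1)
    (c := 36 * U) (d := 38 * U - 1) (by omega) (by omega) (by omega) (by omega)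
    (by omega) (by omega) hT1 sT rT (by simp only; omega) (by simp only; omega) hT2
    (sLR (by omega) (by omega) (by omega) (by omega)) rLR
    (by simp only; omega) (by simp only; omega)
  have m6 := dcross_meet (G := Q) (A := -(144 * U))
    (B := 144 * U) (C := 36 * U - 1) (D := 68 * U) (a := U) (b := 6 * U - 1)
    (c := 44 * U) (d := 68 * U) (by omega) (by omega) (by omega) (by omega)
    (by omega) (by omega) hS hG1 hG1' hp (by omega) hT2
    (sLR (by omega) (by omega) (by omega) (by omega)) rLR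
    (by simp only; omega) (by simp only; omega)
  have m7 : DReach Q p (-(24 * U) - 1, y) := m6.trans m5.symm
  have m8 : DReach Q f g := hfg.mono sA
  exact ⟨m7.trans (m3.trans (m2.symm.trans m8.symm)), m7.trans (m4.trans m1.symm)⟩

theorem det : PD_DET := by
  intro L m a F A y0 X Y T hv hf h2 h64 ha hst hL hUE hC v hvm hE
  have hLm : 128 ≤ L * m := by nlinarith
  have haU : (a : ℤ) = 6 * ((L * m : ℕ) : ℤ) := by exact_mod_cast ha
  have hU : (128 : ℤ) ≤ ((L * m : ℕ) : ℤ) := by exact_mod_cast hLm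
  generalize hUd : ((L * m : ℕ) : ℤ) = U at *
  set z : Vtx := (X + 32 * a, Y - 20 * U) with hz
  have hz1 : z.1 = X + 32 * a := rfl
  have hz2 : z.2 = Y - 20 * U := rfl
  have ha1 : 1 ≤ a := by omega
  obtain ⟨β, he, ⟨b, b', hor, ⟨w, hw, hra⟩, ⟨w', hw', hra'⟩⟩,
    ⟨f, f', hfor, ⟨g, hg, hfg⟩, ⟨g', hg', hfg'⟩⟩⟩ :=
      arms_tr Pool.Agent.W571.DParms.arms h2 h64 hE hUd.symm
  have hv2 := mem_core4.mp hvm
  obtain ⟨⟨hGO, hTB⟩, ⟨hGD, hDT⟩⟩ := hC
  set P : Set Edg := {e | sh z e ∈ ((↑F : Set Edg) ∩ ↑(Bl X Y a))} with hP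
  set Q : Set Edg := {e | sh z e ∈ ((↑(Bl X Y a) : Set Edg) \ ↑F)} with hQ
  have hBl : ∀ e : Edg, e ∈ RE (-(200 * U)) (160 * U) (-(300 * U)) (300 * U) →
      sh z e ∈ Bl X Y a := by
    intro e he
    unfold Bl
    rw [sh_RE]
    exact RE_subset (by omega) (by omega) (by omega) (by omega) he
  have hPs : (↑(tr z F) : Set Edg) ∩ ↑(RE (-(144 * U)) (144 * U) (-(28 * U)) (68 * U)) ⊆ P := by
    rintro e ⟨h3, h4⟩
    refine ⟨Finset.mem_coe.mpr (mem_tr.mp (Finset.mem_coe.mp h3)), ?_⟩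
    exact Finset.mem_coe.mpr (hBl e (RE_subset (by omega) (by omega) (by omega) (by omega)
      (Finset.mem_coe.mp h4)))
  have hQs : (↑(RE (-(144 * U)) (144 * U) (-(28 * U)) (68 * U)) : Set Edg) \ ↑(tr z F) ⊆ Q := by
    rintro e ⟨h3, h4⟩
    refine ⟨Finset.mem_coe.mpr (hBl e (RE_subset (by omega) (by omega) (by omega) (by omega)
      (Finset.mem_coe.mp h3))), ?_⟩
    exact fun h5 => h4 (Finset.mem_coe.mpr (mem_tr.mpr (Finset.mem_coe.mp h5)))
  have backP : ∀ {u u' : Vtx}, Reach P u u' → Reach ((↑F : Set Edg) ∩ ↑(Bl X Y a))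
      (u.1 + z.1, u.2 + z.2) (u'.1 + z.1, u'.2 + z.2) :=
    fun h => reach_sh (fun e he => he) h
  have backQ : ∀ {u u' : Vtx}, DReach Q u u' → DReach ((↑(Bl X Y a) : Set Edg) \ ↑F)
      (u.1 + z.1, u.2 + z.2) (u'.1 + z.1, u'.2 + z.2) :=
    fun h => dreach_sh (fun e he => he) h
  set W : Set Edg := ↑(Exm (↑F) (st0 A y0) T ∪ Bl X Y a) with hW
  have hWE : (↑(Exm (↑F) (st0 A y0) T) : Set Edg) ⊆ W := by
    rw [hW, Finset.coe_union]; exact Set.subset_union_left
  have hWB : (↑(Bl X Y a) : Set Edg) ⊆ W := by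
    rw [hW, Finset.coe_union]; exact Set.subset_union_right
  -- the edge
  set e : Edg := (v.1, v.2, β) with hedef
  have heF : sh z e ∈ F := mem_tr.mp he
  have heB : sh z e ∈ Bl X Y a := by
    apply hBl
    rw [hedef]
    cases β
    · rw [mem_RE_false]; omega
    · rw [mem_RE_true]; omega
  -- the open side
  have hopen : Reach ((↑F : Set Edg) ∩ W) (st0 A y0).1 (b.1 + z.1, b.2 + z.2) := by
    obtain ⟨yb, yc, hyb, hyc, hR1, c, ⟨s, hs, rfl⟩, hR2⟩ := hL
    have hS := reach_sh (v := (-z.1, -z.2)) (G := (↑F : Set Edg) ∩ ↑(LS X Y a))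
      (G' := (↑(tr z F) : Set Edg) ∩ ↑(RE (-(144 * U)) (144 * U) (-(28 * U)) (-(4 * U)))) (by
        rintro e ⟨h3, h4⟩
        refine ⟨Finset.mem_coe.mpr (mem_tr.mpr ?_), ?_⟩
        · rw [sh_neg]; exact Finset.mem_coe.mp h3
        · rw [Finset.mem_coe, sh_RE]
          have h5 := LRE_subset_RE (Finset.mem_coe.mp h4)
          exact RE_subset (by simp only; omega) (by simp only; omega) (by simp only; omega)
            (by simp only; omega) h5) hR1
    have h6 := open_part hU hPs hGO hTB (by simp only; omega) (by simp only; omega) hS hvm hw (by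
      rcases hor with ⟨h7, -⟩ | ⟨h7, -⟩
      · rw [h7]
      · rw [h7]
        cases β
        · rw [tgt_false]; simp only; omega
        · rw [tgt_true]) hra
    have h7 := backP h6
    simp only [neg_add_cancel_right] at h7
    have e3 : Reach ((↑F : Set Edg) ∩ ↑(Bl X Y a)) (X + 8 * a, yc) (orb (↑F) (st0 A y0) s).1 :=
      hR2.mono (by
        rintro e ⟨h0, h⟩
        exact ⟨h0, HkE_sub ha1 h.1⟩)
    have e4 := orb_reach (F := (↑F : Set Edg)) (W := ↑(Exm (↑F) (st0 A y0) T)) (σ := st0 A y0)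
      (T := T) (fun s hs => by exact_mod_cast mem_Exm.mpr ⟨s, hs, rfl⟩) hs
    exact (e4.mono (Set.inter_subset_inter_right _ hWE)).trans
      ((e3.symm.trans h7).mono (Set.inter_subset_inter_right _ hWB))
  -- the dual side
  have hds : v.1 - 1 ≤ (dsrc e).1 ∧ (dsrc e).1 ≤ v.1 := by
    rw [hedef]
    cases β
    · rw [dsrc_false]; simp only; omega
    · rw [dsrc_true]; simp only; omega
  have hdual : DReach (W \ ↑F) (face (st0 A y0)) (f.1 + z.1, f.2 + z.2) ∧
      DReach (W \ ↑F) (face (st0 A y0)) (f'.1 + z.1, f'.2 + z.2) := by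
    obtain ⟨yb, yc, hyb, hyc, hR1, c, ⟨s, hs, rfl⟩, hR2⟩ := hUE
    have hsub : ∀ e ∈ (dE (US X Y a) : Set Edg) \ ↑F,
        dl (sh (-z.1, -z.2) e) ∈ RE (-(144 * U)) (144 * U) (44 * U) (68 * U) := by
      rintro e ⟨h3, h4⟩
      have h5 : dl (sh (-z.1, -z.2) e) = sh (-z.1, -z.2) (dl e) := by
        obtain ⟨x, y, _ | _⟩ := e
        · simp only [sh, dl_f, Prod.mk.injEq, and_true]; ring
        · simp only [sh, dl_t, Prod.mk.injEq, and_true, true_and]; ring
      rw [h5, sh_RE]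
      have h6 := LRE_subset_RE (show dl e ∈ LRE _ _ _ _ from h3)
      exact RE_subset (by simp only; omega) (by simp only; omega) (by simp only; omega)
        (by simp only; omega) h6
    have hS := dreach_sh (v := (-z.1, -z.2)) (G := (dE (US X Y a) : Set Edg) \ ↑F)
      (G' := (fun e => sh (-z.1, -z.2) e) '' ((dE (US X Y a) : Set Edg) \ ↑F))
      (fun e he => ⟨e, he, rfl⟩) hR1
    have hS59 : ∀ {S : Finset Edg}, S ⊆ RE (X - 59 * a) (X + 59 * a) (Y - 59 * a) (Y + 59 * a) →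
        dE S ⊆ ↑(Bl X Y a) := fun h => dE_sub ha1 h
    have h6 := dual_part hU hQs hGD hDT (by simp only; omega) (by simp only; omega) hS (by
        rintro _ ⟨e, he, rfl⟩
        show sh z (sh (-z.1, -z.2) e) ∈ ((↑(Bl X Y a) : Set Edg) \ ↑F)
        rw [sh_neg]
        refine ⟨hS59 ?_ he.1, he.2⟩
        unfold US
        exact LRE_subset_RE.trans (RE_subset (by omega) (by omega) (by omega) (by omega))) (by
        rintro _ ⟨e, he, rfl⟩
        exact hsub e he) hvm (f := f) (f' := f') (by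
        rcases hfor with ⟨h7, -⟩ | ⟨h7, -⟩
        · rw [h7]; exact hds.1
        · rw [h7]; omega) (by
        rcases hfor with ⟨-, h7⟩ | ⟨-, h7⟩
        · rw [h7]
        · rw [h7]; exact hds.2) hg hfg hg' hfg'
    have h7 := backQ h6.1
    have h8 := backQ h6.2
    simp only [neg_add_cancel_right] at h7 h8
    have e2 : DReach (↑(Bl X Y a) \ (↑F : Set Edg)) (X + 8 * a, yc)
        (face (orb (↑F) (st0 A y0) s)) :=
      hR2.mono (by
        rintro e ⟨h0, h⟩
        refine ⟨dE_sub ha1 ?_ h0.1, h⟩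
        rintro ⟨x, y, _ | _⟩ h
        · simp only [HkE', Finset.mem_union, mem_RE_false] at h ⊢; omega
        · simp only [HkE', Finset.mem_union, mem_RE_true] at h ⊢; omega)
    have e4 := orb_dreach (F := (↑F : Set Edg)) (W := ↑(Exm (↑F) (st0 A y0) T)) (σ := st0 A y0)
      (T := T) (fun s hs => by exact_mod_cast mem_Exm.mpr ⟨s, hs, rfl⟩) hs
    have e5 := e4.mono (Set.sdiff_subset_sdiff_left hWE)
    exact ⟨e5.trans ((e2.symm.trans h7).mono (Set.sdiff_subset_sdiff_left hWB)),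
      e5.trans ((e2.symm.trans h8).mono (Set.sdiff_subset_sdiff_left hWB))⟩
  -- the arms
  have harm : ∀ {u u' : Vtx}, Reach ((↑(tr z F) ∩
      ↑(RE (v.1 - 4 * U) (v.1 + 4 * U) (v.2 - 16 * U) (v.2 + 16 * U))) \ {e}) u u' →
      Reach (((↑F : Set Edg) ∩ W) \ {sh z e}) (u.1 + z.1, u.2 + z.2) (u'.1 + z.1, u'.2 + z.2) := by
    intro u u' h
    refine reach_sh ?_ h
    rintro e' ⟨⟨h3, h4⟩, h5⟩
    refine ⟨⟨Finset.mem_coe.mpr (mem_tr.mp (Finset.mem_coe.mp h3)), hWB ?_⟩, ?_⟩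
    · exact Finset.mem_coe.mpr (hBl e' (RE_subset (by omega) (by omega) (by omega) (by omega)
        (Finset.mem_coe.mp h4)))
    · intro h6
      apply h5
      rw [Set.mem_singleton_iff] at h6 ⊢
      obtain ⟨x, y, q⟩ := e'
      obtain ⟨x', y', q'⟩ := e
      simp only [sh, Prod.mk.injEq] at h6 ⊢
      exact ⟨by omega, by omega, h6.2.2⟩
  have hsrc : src (sh z e) = (v.1 + z.1, v.2 + z.2) := by rw [src_sh]; rfl
  have htgt : tgt (sh z e) = ((tgt e).1 + z.1, (tgt e).2 + z.2) := tgt_sh z e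
  have hdsrc : dsrc (sh z e) = ((dsrc e).1 + z.1, (dsrc e).2 + z.2) := dsrc_sh z e
  have hdtgt : dtgt (sh z e) = (v.1 + z.1, v.2 + z.2) := by rw [dtgt_sh]; rfl
  have hdd : DReach (W \ ↑F) (face (st0 A y0)) (dsrc (sh z e)) ∧
      DReach (W \ ↑F) (face (st0 A y0)) (dtgt (sh z e)) := by
    rw [hdsrc, hdtgt]
    rcases hfor with ⟨h7, h8⟩ | ⟨h7, h8⟩
    · rw [← h7, ← h8]; exact hdual
    · rw [← h8, ← h7]; exact ⟨hdual.2, hdual.1⟩
  show PinA (2 * a) (st0 A y0) W ↑F (v.1 + z.1, v.2 + z.2)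
  have far1 : Far (v.1 + z.1, v.2 + z.2) (2 * a) (w.1 + z.1, w.2 + z.2) := by
    unfold Far; simp only; omega
  have far2 : Far (v.1 + z.1, v.2 + z.2) (2 * a) (w'.1 + z.1, w'.2 + z.2) := by
    unfold Far; simp only; omega
  rcases hor with ⟨h7, h8⟩ | ⟨h7, h8⟩
  · refine ⟨sh z e, ((tgt e).1 + z.1, (tgt e).2 + z.2), (w.1 + z.1, w.2 + z.2),
      (w'.1 + z.1, w'.2 + z.2), ⟨heF, hWB heB⟩, Or.inl ⟨hsrc, htgt⟩, ?_, ⟨?_, ?_⟩,
      ⟨far1, far2⟩, hdd⟩
    · rw [h7] at hopen; exact hopen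
    · have := harm hra
      rw [h7] at this; exact this
    · have := harm hra'
      rw [h8] at this; exact this
  · refine ⟨sh z e, ((tgt e).1 + z.1, (tgt e).2 + z.2), (w'.1 + z.1, w'.2 + z.2),
      (w.1 + z.1, w.2 + z.2), ⟨heF, hWB heB⟩, Or.inl ⟨hsrc, htgt⟩, ?_, ⟨?_, ?_⟩,
      ⟨far2, far1⟩, hdd⟩
    · rw [h7] at hopen
      refine hopen.trans (Adj.reach ⟨sh z e, ⟨heF, hWB heB⟩, Or.inr ⟨hsrc, htgt⟩⟩)
    · have := harm hra'
      rw [h8] at this; exact this
    · have := harm hra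
      rw [h7] at this; exact this

end Pool.Agent.W125.PD
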